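import Mathlib

/-!
# Cross-intersecting pairs of projective subspaces

For every field `F`, every `n` and every cross-intersecting sequence of `m` pairs of nonempty
projective subspaces of the `n`-dimensional projective space over `F` one has `m ≤ 2^(n+1) - 2`.

Proof. Let `u i`, `v i` be the exterior products of bases of `U i`, `V i`. Then `u i ∧ v j = 0` iff
`U i ∩ V j ≠ 0`. So `u i ∧ v j = 0` for `i < j` and `u i ∧ v i ≠ 0`, and the `u i` are linearly
independent in the exterior algebra. As `U i` and `V i` are nonzero and meet in `0`, the degree of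
`u i` is between `1` and `n`; the sum of the exterior powers of these degrees has dimension
`2^(n+1) - 2`.
-/

set_option autoImplicit false

namespace Pool.Agent.Results.MP_59f694_co.Bound

open Module

/-- `(ℙ(U i), ℙ(V i))`, `i < m`, is a cross-intersecting sequence of pairs of nonempty projective
subspaces of the `n`-dimensional projective space `ℙ(F^(n+1))`. -/
structure CrossIntersecting (F : Type*) [Field F] (n m : ℕ)
    (U V : Fin m → Submodule F (Fin (n + 1) → F)) : Prop where
  left_ne : ∀ i, U i ≠ ⊥
  right_ne : ∀ i, V i ≠ ⊥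
  disjoint : ∀ i, U i ⊓ V i = ⊥
  meet : ∀ i j, i < j → U i ⊓ V j ≠ ⊥

section

variable {F E : Type*} [Field F] [AddCommGroup E] [Module F E]

lemma wedge_ne {k : ℕ} {v : Fin k → E} (hv : LinearIndependent F v) :
    ExteriorAlgebra.ιMulti F k v ≠ 0 := by
  have h := exteriorPower.ιMulti_family_linearIndependent_field (n := k) hv
  have h1 := h.ne_zero (Set.powersetCard.ofFinEmbEquiv (RelEmbedding.refl _))
  intro h2
  apply h1
  apply Subtype.ext
  rw [exteriorPower.ιMulti_family_apply_coe]
  unfold ExteriorAlgebra.ιMulti_family
  rw [Equiv.symm_apply_apply]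
  exact h2

variable [FiniteDimensional F E]

/-- the basis vectors of a subspace -/
noncomputable def vec (U : Submodule F E) : Fin (finrank F U) → E :=
  fun i => ((finBasis F U) i : E)

/-- the exterior product of a basis of a subspace -/
noncomputable def w (U : Submodule F E) : ExteriorAlgebra F E :=
  ExteriorAlgebra.ιMulti F (finrank F U) (vec U)

lemma vec_li (U : Submodule F E) : LinearIndependent F (vec U) := by
  have h := (finBasis F U).linearIndependent
  exact h.map' U.subtype (Submodule.ker_subtype U)

lemma vec_span (U : Submodule F E) : Submodule.span F (Set.range (vec U)) = U := by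
  have h := (finBasis F U).span_eq
  have h2 : Set.range (vec U) = U.subtype '' Set.range (finBasis F U) := by
    rw [← Set.range_comp]; rfl
  rw [h2, Submodule.span_image, h, Submodule.map_top, Submodule.range_subtype]

lemma append_li (U V : Submodule F E) :
    LinearIndependent F (Fin.append (vec U) (vec V)) ↔ U ⊓ V = ⊥ := by
  rw [← linearIndependent_equiv (finSumFinEquiv), linearIndependent_sum]
  have h1 : (Fin.append (vec U) (vec V) ∘ finSumFinEquiv) ∘ Sum.inl = vec U := by
    ext i; simp
  have h2 : (Fin.append (vec U) (vec V) ∘ finSumFinEquiv) ∘ Sum.inr = vec V := by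
    ext i; simp
  rw [h1, h2, vec_span, vec_span, disjoint_iff]
  exact ⟨fun h => h.2.2, fun h => ⟨vec_li U, vec_li V, h⟩⟩

lemma mul_ne {U V : Submodule F E} (h : U ⊓ V = ⊥) : w U * w V ≠ 0 := by
  unfold w
  rw [ExteriorAlgebra.ιMulti_mul_ιMulti]
  exact wedge_ne ((append_li U V).2 h)

lemma mul_eq {U V : Submodule F E} (h : U ⊓ V ≠ ⊥) : w U * w V = 0 := by
  unfold w
  rw [ExteriorAlgebra.ιMulti_mul_ιMulti]
  refine AlternatingMap.map_linearDependent _ _ fun h1 => h ((append_li U V).1 h1)

lemma w_mem (U : Submodule F E) : w U ∈ ⋀[F]^(finrank F U) E :=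
  ExteriorAlgebra.ιMulti_range F _ ⟨_, rfl⟩

end

theorem result (F : Type*) [Field F] (n m : ℕ) (U V : Fin m → Submodule F (Fin (n + 1) → F))
    (h : CrossIntersecting F n m U V) : m ≤ 2 ^ (n + 1) - 2 := by
  classical
  have hli : LinearIndependent F (fun i => w (U i)) := by
    rw [Fintype.linearIndependent_iff]
    intro c hc
    by_contra hne
    push Not at hne
    obtain ⟨i0, hi0⟩ := hne
    -- the largest index with nonzero coefficient
    obtain ⟨k, hk, hmax⟩ := (Finset.univ.filter fun i => c i ≠ 0).exists_max_image id
      ⟨i0, by simpa using hi0⟩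
    simp only [Finset.mem_filter, Finset.mem_univ, true_and, id] at hk hmax
    have h1 : ∑ i, c i • (w (U i) * w (V k)) = 0 := by
      have := congrArg (fun x => x * w (V k)) hc
      simpa [Finset.sum_mul] using this
    rw [Finset.sum_eq_single k] at h1
    · exact (smul_ne_zero hk (mul_ne (h.disjoint k))) h1
    · intro i _ hik
      rcases lt_or_gt_of_ne hik with h2 | h2
      · rw [mul_eq (h.meet i k h2), smul_zero]
      · by_cases h3 : c i = 0
        · rw [h3, zero_smul]
        · exact absurd (hmax i h3) (not_le.2 h2)
    · intro h2; exact absurd (Finset.mem_univ _) h2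
  -- the degrees
  have hdeg : ∀ i, finrank F (U i) ∈ Finset.Icc 1 n := by
    intro i
    have h1 : 0 < finrank F (U i) := by
      rw [Nat.pos_iff_ne_zero]
      intro h0
      exact h.left_ne i (Submodule.finrank_eq_zero.1 h0)
    have h2 : 0 < finrank F (V i) := by
      rw [Nat.pos_iff_ne_zero]
      intro h0
      exact h.right_ne i (Submodule.finrank_eq_zero.1 h0)
    have h3 := Submodule.finrank_sup_add_finrank_inf_eq (U i) (V i)
    rw [h.disjoint i, finrank_bot] at h3
    have h4 := Submodule.finrank_le (U i ⊔ V i)
    rw [finrank_fin_fun] at h4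
    rw [Finset.mem_Icc]
    omega
  let W : ℕ → Submodule F (ExteriorAlgebra F (Fin (n + 1) → F)) := fun a => ⋀[F]^a (Fin (n + 1) → F)
  have hfin : ∀ a, FiniteDimensional F (W a) := fun a => exteriorPower.instFinite
  have hsum : ∀ s : Finset ℕ, FiniteDimensional F (↥(s.sup W)) ∧
      finrank F (↥(s.sup W)) ≤ ∑ a ∈ s, (n + 1).choose a := by
    intro s
    induction s using Finset.induction_on with
    | empty =>
      rw [Finset.sup_empty]
      exact ⟨inferInstance, by simp⟩
    | insert a s ha ih =>
      rw [Finset.sup_insert, Finset.sum_insert ha]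
      have := hfin a
      have := ih.1
      refine ⟨inferInstance, (Submodule.finrank_add_le_finrank_add_finrank _ _).trans ?_⟩
      refine add_le_add ?_ ih.2
      have := exteriorPower.finrank_eq F a (M := Fin (n + 1) → F)
      rw [finrank_fin_fun] at this
      exact this.le
  have hS := hsum (Finset.Icc 1 n)
  have hmem : ∀ i, w (U i) ∈ (Finset.Icc 1 n).sup W := fun i =>
    (Finset.le_sup (f := W) (hdeg i)) (w_mem (U i))
  have := hS.1
  have hli2 : LinearIndependent F
      (fun i => (⟨w (U i), hmem i⟩ : ↥((Finset.Icc 1 n).sup W))) := by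
    refine LinearIndependent.of_comp (Submodule.subtype _) ?_
    exact hli
  have hcard := hli2.fintype_card_le_finrank
  rw [Fintype.card_fin] at hcard
  have h5 : ∑ a ∈ Finset.Icc 1 n, (n + 1).choose a + 2 = 2 ^ (n + 1) := by
    have h6 := Nat.sum_range_choose (n + 1)
    rw [Finset.sum_range_succ, Finset.range_eq_Ico, Finset.sum_eq_sum_Ico_succ_bot (by omega)] at h6
    simp only [Nat.choose_zero_right, Nat.choose_self, zero_add] at h6
    have h7 : Finset.Ico 1 (n + 1) = Finset.Icc 1 n := by
      ext x; simp only [Finset.mem_Ico, Finset.mem_Icc]; omega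
    rw [h7] at h6
    omega
  have := hS.2
  omega

end Pool.Agent.Results.MP_59f694_co.Bound
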